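import Pool.Agent.Work.MP_a25450_nt.Count

set_option autoImplicit false

namespace Pool.Agent.Results.MP_a25450_nt.SparseExceptions

open Finset Pool.Agent.Work.MP_a25450_nt

theorem result : ∃ C : ℝ, 0 < C ∧ ∀ N : ℕ, 1 ≤ N →
    (Nat.card {n : ℕ // n < N ∧ ∀ d ∈ Nat.digits 10 (2 ^ n), d = 1 ∨ d = 2 ∨ d = 4 ∨ d = 8} : ℝ) ≤
      C * (N : ℝ) ^ (0.435 : ℝ) := by
  classical
  set L : ℝ := 2013 / 1000 with hL
  have hL2 : (2 : ℝ) ≤ L := by rw [hL]; norm_num
  have hW : (0 : ℝ) ≤ W 0 := Nat.cast_nonneg _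
  have hL5 : L ≤ (5 : ℝ) ^ (0.435 : ℝ) := by
    have h1 : ((5 : ℝ) ^ (0.435 : ℝ)) ^ 200 = 5 ^ 87 := by
      rw [← Real.rpow_natCast, ← Real.rpow_mul (by norm_num), ← Real.rpow_natCast]
      norm_num
    have h2 : L ^ 200 ≤ ((5 : ℝ) ^ (0.435 : ℝ)) ^ 200 := by
      rw [h1, hL]
      norm_num
    exact (pow_le_pow_iff_left₀ (by linarith) (by positivity) (by norm_num)).1 h2
  refine ⟨(4 + L * W 0) * L, by positivity, ?_⟩
  intro N hN
  set r := Nat.clog 5 N with hr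
  have hNr : N ≤ 5 ^ r := Nat.le_pow_clog (by norm_num) N
  have hcount := count_le N r (le_trans hNr (Nat.le_mul_of_pos_left _ (by norm_num)))
  have hcard : Nat.card {n : ℕ // n < N ∧ ∀ d ∈ Nat.digits 10 (2 ^ n),
      d = 1 ∨ d = 2 ∨ d = 4 ∨ d = 8} = ((range N).filter fun n => Powerful (2 ^ n)).card := by
    apply Nat.subtype_card
    intro n
    rw [mem_filter, mem_range]
    exact Iff.rfl
  have hN1 : (1 : ℝ) ≤ N := by exact_mod_cast hN
  have hpow : L ^ r ≤ L * (N : ℝ) ^ (0.435 : ℝ) := by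
    rcases Nat.eq_zero_or_pos r with h0 | h0
    · rw [h0, pow_zero]
      have h1 : (1 : ℝ) ≤ (N : ℝ) ^ (0.435 : ℝ) := Real.one_le_rpow hN1 (by norm_num)
      nlinarith
    · have h1 : 5 ^ (r - 1) < N := by
        have h2 : r - 1 < Nat.clog 5 N := by omega
        exact (Nat.lt_clog_iff_pow_lt (by norm_num)).1 h2
      have h3 : L ^ (r - 1) ≤ (N : ℝ) ^ (0.435 : ℝ) := by
        calc L ^ (r - 1) ≤ ((5 : ℝ) ^ (0.435 : ℝ)) ^ (r - 1) :=
              pow_le_pow_left₀ (by linarith) hL5 _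
          _ = ((5 : ℝ) ^ (r - 1)) ^ (0.435 : ℝ) := by
              rw [← Real.rpow_natCast, ← Real.rpow_natCast, ← Real.rpow_mul (by norm_num),
                ← Real.rpow_mul (by norm_num), mul_comm]
          _ ≤ (N : ℝ) ^ (0.435 : ℝ) := by
              apply Real.rpow_le_rpow (by positivity) _ (by norm_num)
              exact_mod_cast h1.le
      have h4 : L ^ r = L * L ^ (r - 1) := by
        rw [← pow_succ']
        congr 1
        omega
      rw [h4]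
      exact mul_le_mul_of_nonneg_left h3 (by linarith)
  have hr1 : ((r : ℝ) + 1) ≤ L ^ r := by
    have h1 : r + 1 ≤ 2 ^ r := Nat.lt_two_pow_self
    have h2 : ((r : ℝ) + 1) ≤ 2 ^ r := by exact_mod_cast h1
    exact h2.trans (pow_le_pow_left₀ (by norm_num) hL2 r)
  rw [hcard]
  calc (((range N).filter fun n => Powerful (2 ^ n)).card : ℝ)
      ≤ 4 * (r + 1) + L ^ (r + 1) * W 0 := hcount
    _ ≤ 4 * L ^ r + L ^ (r + 1) * W 0 := by gcongr
    _ = (4 + L * W 0) * L ^ r := by ring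
    _ ≤ (4 + L * W 0) * (L * (N : ℝ) ^ (0.435 : ℝ)) := by gcongr
    _ = (4 + L * W 0) * L * (N : ℝ) ^ (0.435 : ℝ) := by ring

end Pool.Agent.Results.MP_a25450_nt.SparseExceptions
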